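import Pool.Agent.Helper65.TU.Stmts4
import Pool.Agent.Helper77.TU.RFL

/-! MP_5c2ead_an, project TU, row SWC (helper74): strongly weakly compactly generated spaces. -/

open Set Filter Topology

namespace Pool.Agent.Helper65.TU

universe u v

theorem st_SWC (hJ : ST_JAMU.{u}) (hM : ST_MAZ.{u}) : ST_SWC.{u} := by
  classical
  intro X _ _ _ W hW ε hε
  by_cases hR : Reflexive X
  · refine ⟨fun _ => ∅, fun K _ _ => ⟨wcpt_empty, empty_subset _⟩,
      fun L _ _ => ⟨Bl X, rfl_ball X hR, fun K _ hK _ x hx => ⟨x, hK hx, ?_⟩⟩⟩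
    rw [sub_self, norm_zero]
    exact le_of_lt hε
  · obtain ⟨x, f, hxf⟩ := hJ X hR
    have hex : ∀ K : Set X, ∃ n : ℕ, WCpt K → ∀ y ∈ K, ∃ w ∈ W, ‖y - (n : ℝ) • w‖ ≤ ε := by
      intro K
      by_cases hK : WCpt K
      · obtain ⟨n, hn⟩ := hW.2 ε hε K hK
        exact ⟨n, fun _ => hn⟩
      · exact ⟨0, fun h => absurd h hK⟩
    choose N hN using hex
    refine ⟨fun K => x '' {k | k ≤ N K},
      fun K _ _ => ⟨wcpt_finite ((Set.finite_le_nat _).image _), ?_⟩, ?_⟩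
    · rintro _ ⟨k, _, rfl⟩
      exact hxf.nx k
    · intro L hL _
      obtain ⟨n₀, hn₀⟩ := hM X (1 / 8) x f hxf L hL
      refine ⟨⋃ k ∈ Finset.range (n₀ + 1), (fun y => (k : ℝ) • y) '' W,
        wcpt_biUnion _ (fun k _ => hW.1.smul _), ?_⟩
      intro K hK _ hnear y hy
      have hle : N K ≤ n₀ := by
        apply hn₀
        intro k hk
        obtain ⟨l, hl, hl2⟩ := hnear (x k) ⟨k, hk, rfl⟩
        refine ⟨l, hl, hl2.trans ?_⟩
        norm_num
      obtain ⟨w, hw, hw2⟩ := hN K hK y hy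
      refine ⟨(N K : ℝ) • w, ?_, hw2⟩
      simp only [mem_iUnion]
      exact ⟨N K, Finset.mem_range.mpr (by omega), ⟨w, hw, rfl⟩⟩

end Pool.Agent.Helper65.TU
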