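import Pool.Agent.Helper65.TU.Stmts5

/-! MP_5c2ead_an, project TU, row RQ2 (helper74): extensions of reflexive spaces. -/

open Set Filter Topology

namespace Pool.Agent.Helper65.TU

universe u

theorem st_RQ2 (hRQ1 : ST_RQ1.{u}) : ST_RQ2.{u} := by
  intro X Z _ _ _ _ a T hT δ hδ H ε hε
  have ha1 := hT.one
  have ha0 : 0 < a := by linarith
  obtain ⟨F, hF, hM⟩ := H (ε / a ^ 2) (by positivity)
  let P : X →L[ℝ] Z := a⁻¹ • T
  have hP : ∀ x, P x = a⁻¹ • T x := fun x => rfl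
  have hPn : ∀ x, ‖P x‖ ≤ ‖x‖ := by
    intro x
    rw [hP, norm_smul, Real.norm_of_nonneg (inv_nonneg.2 ha0.le)]
    calc a⁻¹ * ‖T x‖ ≤ a⁻¹ * (a * ‖x‖) :=
          mul_le_mul_of_nonneg_left (hT.nrm x) (inv_nonneg.2 ha0.le)
      _ = ‖x‖ := by field_simp
  have hPK : ∀ K : Set X, WCpt K → K ⊆ Bl X → WCpt (P '' K) ∧ P '' K ⊆ Bl Z := by
    intro K hK hKB
    refine ⟨hK.image P, ?_⟩
    rintro _ ⟨y, hy, rfl⟩
    exact (hPn y).trans (hKB hy)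
  refine ⟨fun K => (fun x => a⁻¹ • x) '' {x : X | T x ∈ F (P '' K) ∧ ‖x‖ ≤ a},
    fun K hK hKB => ?_, fun L hL hLB => ?_⟩
  · obtain ⟨h1, h2⟩ := hPK K hK hKB
    obtain ⟨h3, h4⟩ := hF _ h1 h2
    refine ⟨(hRQ1 X Z a T hT _ h3 a).smul _, ?_⟩
    rintro _ ⟨x, hx, rfl⟩
    show ‖a⁻¹ • x‖ ≤ 1
    rw [norm_smul, Real.norm_of_nonneg (inv_nonneg.2 ha0.le), inv_mul_le_iff₀ ha0, mul_one]
    exact hx.2
  · set r : ℝ := 1 + δ / 2 with hr
    have hr0 : 0 < r := by positivity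
    let L1 : Set Z := {x | x ∈ (a • T) '' L ∧ ‖x‖ ≤ r}
    let L2 : Set Z := (fun x => r⁻¹ • x) '' L1
    have hL1 : WCpt L1 := (hL.image (a • T)).inter_ball r
    have hL2 : WCpt L2 := hL1.smul r⁻¹
    have hL2B : L2 ⊆ Bl Z := by
      rintro _ ⟨x, hx, rfl⟩
      show ‖r⁻¹ • x‖ ≤ 1
      rw [norm_smul, Real.norm_of_nonneg (inv_nonneg.2 hr0.le), inv_mul_le_iff₀ hr0, mul_one]
      exact hx.2
    obtain ⟨M, hM1, hM2⟩ := hM L2 hL2 hL2B
    refine ⟨{x : X | T x ∈ (fun z => a • z) '' M ∧ ‖x‖ ≤ 1 + ε},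
      hRQ1 X Z a T hT _ (hM1.smul a) _, fun K hK hKB hN => ?_⟩
    obtain ⟨h1, h2⟩ := hPK K hK hKB
    obtain ⟨h3, h4⟩ := hF _ h1 h2
    have hN1 : Near δ (F (P '' K)) L2 := by
      intro z hz
      have e4 : ‖z‖ ≤ 1 := h4 hz
      obtain ⟨x, hx1, hx2⟩ := hT.lift z
      have hx3 : ‖x‖ ≤ a := hx2.trans (by nlinarith)
      obtain ⟨l, hl, hxl⟩ := hN (a⁻¹ • x) ⟨x, ⟨by rw [hx1]; exact hz, hx3⟩, rfl⟩
      have e2 : ‖z - (a • T) l‖ ≤ δ / 2 := by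
        have e3 : z - (a • T) l = a • T (a⁻¹ • x - l) := by
          show z - a • T l = _
          rw [map_sub, map_smul, smul_sub, smul_smul, mul_inv_cancel₀ ha0.ne', one_smul, hx1]
        rw [e3, norm_smul, Real.norm_of_nonneg ha0.le]
        calc a * ‖T (a⁻¹ • x - l)‖ ≤ a * (a * (δ / (2 * a ^ 2))) :=
              mul_le_mul_of_nonneg_left ((hT.nrm _).trans (mul_le_mul_of_nonneg_left hxl ha0.le))
                ha0.le
          _ = δ / 2 := by field_simp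
      have e5 : ‖(a • T) l‖ ≤ r := by
        have := norm_sub_norm_le ((a • T) l) z
        have e6 : ‖(a • T) l - z‖ ≤ δ / 2 := by rw [norm_sub_rev]; exact e2
        rw [hr]
        linarith
      refine ⟨r⁻¹ • (a • T) l, ⟨_, ⟨⟨l, hl, rfl⟩, e5⟩, rfl⟩, ?_⟩
      have e7 : ‖(a • T) l - r⁻¹ • (a • T) l‖ ≤ δ / 2 := by
        have e8 : (a • T) l - r⁻¹ • (a • T) l = (1 - r⁻¹) • (a • T) l := by
          rw [sub_smul, one_smul]
        have e9 : 0 ≤ 1 - r⁻¹ := by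
          rw [sub_nonneg]
          exact inv_le_one_of_one_le₀ (by rw [hr]; linarith)
        rw [e8, norm_smul, Real.norm_of_nonneg e9]
        calc (1 - r⁻¹) * ‖(a • T) l‖ ≤ (1 - r⁻¹) * r := mul_le_mul_of_nonneg_left e5 e9
          _ = r - 1 := by field_simp
          _ = δ / 2 := by rw [hr]; ring
      calc ‖z - r⁻¹ • (a • T) l‖ = ‖(z - (a • T) l) + ((a • T) l - r⁻¹ • (a • T) l)‖ := by
            congr 1; abel
        _ ≤ δ / 2 + δ / 2 := (norm_add_le _ _).trans (add_le_add e2 e7)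
        _ = δ := by ring
    have hN2 := hM2 _ h1 h2 hN1
    intro x hx
    obtain ⟨m, hm, hxm⟩ := hN2 (P x) ⟨x, hx, rfl⟩
    obtain ⟨w, hw1, hw2⟩ := hT.lift (T x - a • m)
    have e1 : ‖T x - a • m‖ ≤ ε / a := by
      have e3 : T x - a • m = a • (P x - m) := by
        rw [hP, smul_sub, smul_smul, mul_inv_cancel₀ ha0.ne', one_smul]
      rw [e3, norm_smul, Real.norm_of_nonneg ha0.le]
      calc a * ‖P x - m‖ ≤ a * (ε / a ^ 2) := mul_le_mul_of_nonneg_left hxm ha0.le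
        _ = ε / a := by field_simp
    have e2 : ‖w‖ ≤ ε := by
      calc ‖w‖ ≤ a * ‖T x - a • m‖ := hw2
        _ ≤ a * (ε / a) := mul_le_mul_of_nonneg_left e1 ha0.le
        _ = ε := by field_simp
    refine ⟨x - w, ⟨⟨m, hm, ?_⟩, ?_⟩, ?_⟩
    · show a • m = T (x - w)
      rw [map_sub, hw1]
      abel
    · have e3 : ‖x‖ ≤ 1 := hKB hx
      calc ‖x - w‖ ≤ ‖x‖ + ‖w‖ := norm_sub_le _ _
        _ ≤ 1 + ε := add_le_add e3 e2
    · rw [sub_sub_cancel]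
      exact e2

end Pool.Agent.Helper65.TU
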